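import Mathlib

/-!
# A spin Kostka polynomial which is not palindromic

`K^-_{(4,2),(3,2,1)}(t) = 4 (2 + 3 t + t^2)`.
-/

namespace Pool.Agent.Results.MP_2c9e21_co.SpinKostka

open Finset

/-! ### Definitions -/

/-- The parts of a partition, in weakly decreasing order. -/
noncomputable def lst {m : ℕ} (μ : Nat.Partition m) : List ℕ := μ.parts.sort (· ≥ ·)

/-- The shifted diagram of `ξ` (a list of parts), with rows and columns numbered from `0`. -/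
def diag (ξ : List ℕ) : Finset (ℕ × ℕ) :=
  {c ∈ range ξ.length ×ˢ range (ξ.sum + ξ.length) | c.1 ≤ c.2 ∧ c.2 < ξ.getD c.1 0 + c.1}

/-- A filling of the shifted diagram. The letters are `1' < 1 < 2' < 2 < … < N' < N`; the letter
`k'` is encoded as `2 (k - 1)` and the letter `k` as `2 (k - 1) + 1`. So a letter `v` is primed iff
it is even, and it stands for the variable of number `v / 2` (numbered from `0`). -/
abbrev Filling (ξ : List ℕ) (N : ℕ) := {c // c ∈ diag ξ} → Fin (2 * N)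

/-- Marked shifted tableaux: rows weakly increase, and a letter repeated in a row is unprimed;
columns weakly increase, and a letter repeated in a column is primed. -/
def IsMST {ξ : List ℕ} {N : ℕ} (T : Filling ξ N) : Prop :=
  (∀ c d : {c // c ∈ diag ξ}, c.1.1 = d.1.1 → c.1.2 < d.1.2 →
    T c ≤ T d ∧ (T c = T d → (T c : ℕ) % 2 = 1)) ∧
  (∀ c d : {c // c ∈ diag ξ}, c.1.2 = d.1.2 → c.1.1 < d.1.1 →
    T c ≤ T d ∧ (T c = T d → (T c : ℕ) % 2 = 0))

instance {ξ : List ℕ} {N : ℕ} (T : Filling ξ N) : Decidable (IsMST T) := by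
  unfold IsMST; infer_instance

/-- The Schur `Q`-function `Q_ξ(x_1, …, x_N)`, evaluated at `x`. -/
def schurQ {F : Type*} [CommSemiring F] (ξ : List ℕ) (N : ℕ) (x : ℕ → F) : F :=
  ∑ T : Filling ξ N, if IsMST T then ∏ c, x ((T c : ℕ) / 2) else 0

/-- `v_m(t) = ∏_{i=1}^m (1 - t^i)/(1 - t)`. -/
def vfac {F : Type*} [Field F] (m : ℕ) (t : F) : F := ∏ i ∈ range m, ∑ j ∈ range (i + 1), t ^ j

/-- The Hall-Littlewood function (Macdonald, III (2.1), (2.2))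
`P_μ(x_1, …, x_N; t) = ∏_{i ≥ 0} v_{m_i}(t)^{-1} ∑_{w ∈ S_N} w (x^μ ∏_{i<j} (x_i - t x_j)/(x_i - x_j))`
for `μ = (μ_1, …, μ_N)`, where `m_i` is the number of `j` with `μ_j = i`. -/
def hlP {F : Type*} [Field F] (N : ℕ) (μ : Fin N → ℕ) (x : ℕ → F) (t : F) : F :=
  (∏ i ∈ range (∑ j, μ j + 1), vfac #{j | μ j = i} t)⁻¹ *
    ∑ w : Equiv.Perm (Fin N), (∏ i, x (w i) ^ μ i) *
      ∏ i, ∏ j ∈ Ioi i, (x (w i) - t * x (w j)) / (x (w i) - x (w j))

/-- The field of rational functions in `t` and `x_1, …, x_N`. -/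
abbrev K (N : ℕ) := FractionRing (MvPolynomial (Fin N) (Polynomial ℤ))

/-- The variable `t`. -/
noncomputable def tt (N : ℕ) : K N := algebraMap _ _ (MvPolynomial.C (σ := Fin N) (Polynomial.X : Polynomial ℤ))

/-- The variables `x_1, …, x_N` (numbered from `0`). -/
noncomputable def xx (N : ℕ) (i : ℕ) : K N :=
  if h : i < N then algebraMap _ _ (MvPolynomial.X (R := Polynomial ℤ) (⟨i, h⟩ : Fin N)) else 0

/-- The identity `Q_ξ(x) = ∑_μ c_μ(t) P_μ(x;t)` in the variables `x_1, …, x_N`; the sum is over all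
partitions `μ` of `n` with at most `N` parts. -/
def Expansion (n : ℕ) (ξ : List ℕ) (c : Nat.Partition n → Polynomial ℤ) (N : ℕ) : Prop :=
  schurQ ξ N (xx N) = ∑ μ : Nat.Partition n with Multiset.card μ.parts ≤ N,
    algebraMap _ (K N) (MvPolynomial.C (σ := Fin N) (c μ)) *
      hlP N (fun i => (lst μ).getD i 0) (xx N) (tt N)

/-- `c` is the family of spin Kostka polynomials `K^-_{ξμ}(t)`: the defining identity holds in any
number of variables. -/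
def IsSpinKostka (n : ℕ) (ξ : List ℕ) (c : Nat.Partition n → Polynomial ℤ) : Prop :=
  ∀ N : ℕ, Expansion n ξ c N

/-- The polynomial `f` satisfies `t^m f(1/t) = f(t)` for some integer `m`, i.e. the coefficient of
`t^i` is the coefficient of `t^{m-i}` for all integers `i` (coefficients of negative powers being
zero). -/
def Palindromic (f : Polynomial ℤ) : Prop :=
  ∃ m : ℤ, ∀ i : ℤ, (if 0 ≤ i then f.coeff i.toNat else 0) =
    (if 0 ≤ m - i then f.coeff (m - i).toNat else 0)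

/-! ### Hall-Littlewood functions in three variables -/

theorem sum_perm3 {M : Type*} [AddCommMonoid M] (f : Equiv.Perm (Fin 3) → M) :
    ∑ w, f w = f 1 + f (Equiv.swap 0 1) + f (Equiv.swap 0 2) + f (Equiv.swap 1 2) +
      f (finRotate 3) + f ((finRotate 3) * (finRotate 3)) := by
  have h : (univ : Finset (Equiv.Perm (Fin 3))) = {1, Equiv.swap 0 1, Equiv.swap 0 2,
    Equiv.swap 1 2, finRotate 3, (finRotate 3) * (finRotate 3)} := by decide
  rw [h, sum_insert (by decide), sum_insert (by decide), sum_insert (by decide),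
    sum_insert (by decide), sum_insert (by decide), sum_singleton]
  simp only [add_assoc]

theorem Ioi3 : (Ioi (0 : Fin 3) = {1, 2}) ∧ (Ioi (1 : Fin 3) = {2}) ∧ (Ioi (2 : Fin 3) = ∅) := by
  decide

/-- the numerator sum -/
def hsum {F : Type*} [Field F] (a b c : ℕ) (x y z t : F) : F :=
  x ^ a * y ^ b * z ^ c * ((x - t * y) * (x - t * z) * (y - t * z)) -
  y ^ a * x ^ b * z ^ c * ((y - t * x) * (y - t * z) * (x - t * z)) -
  z ^ a * y ^ b * x ^ c * ((z - t * y) * (z - t * x) * (y - t * x)) -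
  x ^ a * z ^ b * y ^ c * ((x - t * z) * (x - t * y) * (z - t * y)) +
  y ^ a * z ^ b * x ^ c * ((y - t * z) * (y - t * x) * (z - t * x)) +
  z ^ a * x ^ b * y ^ c * ((z - t * x) * (z - t * y) * (x - t * y))

theorem hlP_three {F : Type*} [Field F] (a b c : ℕ) (x : ℕ → F) (t V p : F)
    (h01 : x 0 - x 1 ≠ 0) (h02 : x 0 - x 2 ≠ 0) (h12 : x 1 - x 2 ≠ 0)
    (hV : ∏ i ∈ range (∑ j, (![a, b, c] : Fin 3 → ℕ) j + 1),
      vfac #{j | (![a, b, c] : Fin 3 → ℕ) j = i} t = V) (hV0 : V ≠ 0)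
    (hp : hsum a b c (x 0) (x 1) (x 2) t =
      V * ((x 0 - x 1) * (x 0 - x 2) * (x 1 - x 2)) * p) :
    hlP 3 ![a, b, c] x t = p := by
  unfold hlP
  rw [hV, inv_mul_eq_iff_eq_mul₀ hV0, sum_perm3]
  simp only [Fin.prod_univ_three, Ioi3.1, Ioi3.2.1, Ioi3.2.2, prod_empty, mul_one, prod_singleton,
    prod_pair (show (1 : Fin 3) ≠ 2 by decide)]
  have e1 : (Equiv.swap (0 : Fin 3) 1) 0 = 1 ∧ (Equiv.swap (0 : Fin 3) 1) 1 = 0 ∧
    (Equiv.swap (0 : Fin 3) 1) 2 = 2 := by decide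
  have e2 : (Equiv.swap (0 : Fin 3) 2) 0 = 2 ∧ (Equiv.swap (0 : Fin 3) 2) 1 = 1 ∧
    (Equiv.swap (0 : Fin 3) 2) 2 = 0 := by decide
  have e3 : (Equiv.swap (1 : Fin 3) 2) 0 = 0 ∧ (Equiv.swap (1 : Fin 3) 2) 1 = 2 ∧
    (Equiv.swap (1 : Fin 3) 2) 2 = 1 := by decide
  have e4 : (finRotate 3) 0 = 1 ∧ (finRotate 3) 1 = 2 ∧ (finRotate 3) 2 = 0 := by decide
  have e5 : (finRotate 3 * finRotate 3) 0 = 2 ∧ (finRotate 3 * finRotate 3) 1 = 0 ∧
    (finRotate 3 * finRotate 3) 2 = 1 := by decide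
  simp only [e1, e2, e3, e4, e5, Equiv.Perm.coe_one, id_eq]
  simp only [Matrix.cons_val_zero, Matrix.cons_val_one, Matrix.cons_val, Fin.val_zero, Fin.val_one,
    Fin.val_two]
  have h10 : x 1 - x 0 = -(x 0 - x 1) := by ring
  have h20 : x 2 - x 0 = -(x 0 - x 2) := by ring
  have h21 : x 2 - x 1 = -(x 1 - x 2) := by ring
  rw [h10, h20, h21]
  have key : ∀ A B C D E G : F, 
      A / (x 0 - x 1) * (B / (x 0 - x 2)) * (C / (x 1 - x 2)) = 
      A * B * C / ((x 0 - x 1) * (x 0 - x 2) * (x 1 - x 2)) := by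
    intro A B C D E G
    field_simp
  have goal2 : hsum a b c (x 0) (x 1) (x 2) t / ((x 0 - x 1) * (x 0 - x 2) * (x 1 - x 2)) =
    V * p := by
    rw [hp]
    field_simp
  rw [← goal2]
  unfold hsum
  field_simp
  ring


theorem vfac0 {F : Type*} [Field F] (t : F) : vfac 0 t = 1 := by simp [vfac]
theorem vfac1 {F : Type*} [Field F] (t : F) : vfac 1 t = 1 := by simp [vfac]
theorem vfac2 {F : Type*} [Field F] (t : F) : vfac 2 t = 1 + t := by
  simp [vfac, prod_range_succ, sum_range_succ]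
theorem vfac3 {F : Type*} [Field F] (t : F) : vfac 3 t = (1 + t) * (1 + t + t ^ 2) := by
  simp [vfac, prod_range_succ, sum_range_succ]

/-- all the multiplicities of a vector -/
theorem vprod {F : Type*} [Field F] (a b c : ℕ) (t : F) (l : List ℕ)
    (hl : l = (List.range (∑ j, (![a, b, c] : Fin 3 → ℕ) j + 1)).map
      fun i => #{j | (![a, b, c] : Fin 3 → ℕ) j = i}) :
    ∏ i ∈ range (∑ j, (![a, b, c] : Fin 3 → ℕ) j + 1),
      vfac #{j | (![a, b, c] : Fin 3 → ℕ) j = i} t = (l.map fun m => vfac m t).prod := by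
  rw [hl, List.map_map, Finset.prod_eq_multiset_prod, Finset.range_val, ← Multiset.coe_range,
    Multiset.map_coe, Multiset.prod_coe]
  rfl

variable {F : Type*} [Field F] (x : ℕ → F) (t : F)

theorem P600 (h01 : x 0 - x 1 ≠ 0) (h02 : x 0 - x 2 ≠ 0) (h12 : x 1 - x 2 ≠ 0)
    (ht : 1 + t ≠ 0) : hlP 3 ![6, 0, 0] x t = 
    (x 0 ^ 6 + x 1 ^ 6 + x 2 ^ 6) + (1 - t) * (x 0 ^ 5 * x 1 + x 0 ^ 5 * x 2 + x 1 ^ 5 * x 0 +
      x 1 ^ 5 * x 2 + x 2 ^ 5 * x 0 + x 2 ^ 5 * x 1) +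
    (1 - t) * (x 0 ^ 4 * x 1 ^ 2 + x 0 ^ 4 * x 2 ^ 2 + x 1 ^ 4 * x 0 ^ 2 +
      x 1 ^ 4 * x 2 ^ 2 + x 2 ^ 4 * x 0 ^ 2 + x 2 ^ 4 * x 1 ^ 2) +
    (1 - t) ^ 2 * (x 0 ^ 4 * x 1 * x 2 + x 0 * x 1 ^ 4 * x 2 + x 0 * x 1 * x 2 ^ 4) +
    (1 - t) * (x 0 ^ 3 * x 1 ^ 3 + x 0 ^ 3 * x 2 ^ 3 + x 1 ^ 3 * x 2 ^ 3) +
    (1 - t) ^ 2 * (x 0 ^ 3 * x 1 ^ 2 * x 2 + x 0 ^ 3 * x 1 * x 2 ^ 2 + x 0 ^ 2 * x 1 ^ 3 * x 2 +
      x 0 ^ 2 * x 1 * x 2 ^ 3 + x 0 * x 1 ^ 3 * x 2 ^ 2 + x 0 * x 1 ^ 2 * x 2 ^ 3) +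
    (1 - t) ^ 2 * (x 0 ^ 2 * x 1 ^ 2 * x 2 ^ 2) := by
  refine hlP_three 6 0 0 x t (1 + t) _ h01 h02 h12 ?_ ht ?_
  · rw [vprod 6 0 0 t [2, 0, 0, 0, 0, 0, 1] (by decide)]
    simp [vfac0, vfac1, vfac2]
  · unfold hsum
    ring


/-! ### The `Q`-function -/

/-- the cells -/
def cellFn : Fin 6 → {c // c ∈ diag [4, 2]} :=
  ![⟨(0, 0), by decide⟩, ⟨(0, 1), by decide⟩, ⟨(0, 2), by decide⟩, ⟨(0, 3), by decide⟩,
    ⟨(1, 1), by decide⟩, ⟨(1, 2), by decide⟩]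

theorem cellFn_bij : Function.Bijective cellFn := by decide +kernel

/-- row relation -/
def RR (a b : Fin 6) : Prop := a ≤ b ∧ (a = b → (a : ℕ) % 2 = 1)
/-- column relation -/
def CC (a b : Fin 6) : Prop := a ≤ b ∧ (a = b → (a : ℕ) % 2 = 0)

instance (a b : Fin 6) : Decidable (RR a b) := by unfold RR; infer_instance
instance (a b : Fin 6) : Decidable (CC a b) := by unfold CC; infer_instance

theorem isMST_iff (T : Filling [4, 2] 3) : IsMST T ↔
    (RR (T (cellFn 0)) (T (cellFn 1)) ∧ RR (T (cellFn 1)) (T (cellFn 2)) ∧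
     RR (T (cellFn 2)) (T (cellFn 3)) ∧ CC (T (cellFn 1)) (T (cellFn 4)) ∧
     RR (T (cellFn 4)) (T (cellFn 5)) ∧ CC (T (cellFn 2)) (T (cellFn 5))) := by
  constructor
  · rintro ⟨h1, h2⟩
    exact ⟨h1 (cellFn 0) (cellFn 1) (by decide) (by decide),
      h1 (cellFn 1) (cellFn 2) (by decide) (by decide),
      h1 (cellFn 2) (cellFn 3) (by decide) (by decide),
      h2 (cellFn 1) (cellFn 4) (by decide) (by decide),
      h1 (cellFn 4) (cellFn 5) (by decide) (by decide),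
      h2 (cellFn 2) (cellFn 5) (by decide) (by decide)⟩
  · rintro ⟨h1, h2, h3, h4, h5, h6⟩
    have hall : ∀ p : {c // c ∈ diag [4, 2]} → Prop, (∀ c, p c) ↔ ∀ i, p (cellFn i) := fun p =>
      ⟨fun h i => h _, fun h c => by obtain ⟨i, rfl⟩ := cellFn_bij.2 c; exact h i⟩
    unfold RR CC at *
    have e0 : (cellFn 0).1 = (0, 0) := rfl
    have e1 : (cellFn 1).1 = (0, 1) := rfl
    have e2 : (cellFn 2).1 = (0, 2) := rfl
    have e3 : (cellFn 3).1 = (0, 3) := rfl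
    have e4 : (cellFn 4).1 = (1, 1) := rfl
    have e5 : (cellFn 5).1 = (1, 2) := rfl
    have f2 : Fin.succ (1 : Fin 5) = 2 := rfl
    have f3 : Fin.succ (Fin.succ (1 : Fin 4)) = 3 := rfl
    have f4 : Fin.succ (Fin.succ (Fin.succ (1 : Fin 3))) = 4 := rfl
    have f5 : Fin.succ (Fin.succ (Fin.succ (Fin.succ (1 : Fin 2)))) = 5 := rfl
    unfold IsMST
    simp only [hall, Fin.forall_fin_succ, Fin.succ_zero_eq_one, f2, f3, f4, f5, e0, e1, e2, e3, e4, e5]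
    generalize T (cellFn 0) = a at *
    generalize T (cellFn 1) = b at *
    generalize T (cellFn 2) = c at *
    generalize T (cellFn 3) = d at *
    generalize T (cellFn 4) = e at *
    generalize T (cellFn 5) = f at *
    clear hall e0 e1 e2 e3 e4 e5 f2 f3 f4 f5
    simp only [IsEmpty.forall_iff, Fin.ext_iff, Fin.le_def, and_true] at h1 h2 h3 h4 h5 h6 ⊢
    omega


theorem sum_cons {M α : Type*} [AddCommMonoid M] [Fintype α] (n : ℕ) (f : (Fin (n + 1) → α) → M) :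
    ∑ g, f g = ∑ a, ∑ g : Fin n → α, f (Fin.cons a g) := by
  rw [← (Fin.consEquiv (fun _ : Fin (n + 1) => α)).sum_comp, Fintype.sum_prod_type]
  rfl

theorem schurQ_eq {F : Type*} [CommSemiring F] (x : ℕ → F) : schurQ [4, 2] 3 x =
    ∑ b : Fin 6, ∑ c : Fin 6, if RR b c then
      x ((b : ℕ) / 2) * x ((c : ℕ) / 2) *
      (∑ a : Fin 6, if RR a b then x ((a : ℕ) / 2) else 0) *
      (∑ d : Fin 6, if RR c d then x ((d : ℕ) / 2) else 0) *
      (∑ e : Fin 6, if CC b e then x ((e : ℕ) / 2) *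
        (∑ f : Fin 6, if RR e f ∧ CC c f then x ((f : ℕ) / 2) else 0) else 0) else 0 := by
  unfold schurQ
  let E := Equiv.ofBijective cellFn cellFn_bij
  have hE : ∀ i, E i = cellFn i := fun i => rfl
  rw [← (Equiv.arrowCongr E (Equiv.refl (Fin (2 * 3)))).sum_comp]
  have h1 : ∀ g : Fin 6 → Fin 6, ∀ i, (Equiv.arrowCongr E (Equiv.refl (Fin (2 * 3)))) g (cellFn i) = g i := by
    intro g i
    rw [← hE]
    simp
  simp only [isMST_iff, h1]
  have h2 : ∀ g : Fin 6 → Fin 6, ∏ c, x (((Equiv.arrowCongr E (Equiv.refl (Fin (2 * 3)))) g c : ℕ) / 2) =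
      ∏ i, x ((g i : ℕ) / 2) := by
    intro g
    rw [← E.prod_comp]
    simp only [hE, h1]
  simp only [h2]
  have h3 : ∀ f : (Fin 6 → Fin (2 * 3)) → F, ∑ g, f g = ∑ a : Fin 6, ∑ b : Fin 6, ∑ c : Fin 6,
      ∑ d : Fin 6, ∑ e : Fin 6, ∑ g : Fin 6, f ![a, b, c, d, e, g] := by
    intro f
    rw [sum_cons]
    refine sum_congr rfl fun a _ => ?_
    rw [sum_cons]
    refine sum_congr rfl fun b _ => ?_
    rw [sum_cons]
    refine sum_congr rfl fun c _ => ?_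
    rw [sum_cons]
    refine sum_congr rfl fun d _ => ?_
    rw [sum_cons]
    refine sum_congr rfl fun e _ => ?_
    rw [sum_cons]
    refine sum_congr rfl fun g _ => ?_
    rw [Fintype.sum_unique]
    rfl
  rw [h3, sum_comm]
  refine sum_congr rfl fun b _ => ?_
  rw [sum_comm]
  refine sum_congr rfl fun c _ => ?_
  have key : ∀ (C : F) (α δ ε : Fin 6 → F) (φ : Fin 6 → Fin 6 → F),
      ∑ a, ∑ d, ∑ e, ∑ f, (C * α a * δ d * (ε e * φ e f)) =
      C * (∑ a, α a) * (∑ d, δ d) * (∑ e, ε e * ∑ f, φ e f) := by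
    intro C α δ ε φ
    simp_rw [← Finset.mul_sum, ← Finset.sum_mul, ← Finset.mul_sum, ← Finset.sum_mul,
      ← Finset.mul_sum]
  have e1 : ∀ e : Fin 6, (if CC b e then x ((e : ℕ) / 2) *
        (∑ f : Fin 6, if RR e f ∧ CC c f then x ((f : ℕ) / 2) else 0) else 0) =
        (if CC b e then x ((e : ℕ) / 2) else 0) *
        (∑ f : Fin 6, if RR e f ∧ CC c f then x ((f : ℕ) / 2) else 0) := by
    intro e
    split_ifs <;> simp
  simp only [e1]
  by_cases hbc : RR b c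
  · rw [if_pos hbc, ← key]
    refine sum_congr rfl fun a _ => sum_congr rfl fun d _ => sum_congr rfl fun e _ =>
      sum_congr rfl fun f _ => ?_
    simp only [Matrix.cons_val_zero, Matrix.cons_val_one, Matrix.cons_val, Fin.prod_univ_six]
    by_cases k1 : RR a b
    · by_cases k2 : RR c d
      · by_cases k3 : CC b e
        · by_cases k4 : RR e f ∧ CC c f
          · rw [if_pos ⟨k1, hbc, k2, k3, k4⟩, if_pos k1, if_pos k2, if_pos k3, if_pos k4]
            ring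
          · rw [if_neg (fun h => k4 h.2.2.2.2), if_neg k4]
            ring
        · rw [if_neg (fun h => k3 h.2.2.2.1), if_neg k3]
          ring
      · rw [if_neg (fun h => k2 h.2.2.1), if_neg k2]
        ring
    · rw [if_neg (fun h => k1 h.1), if_neg k1]
      ring
  · rw [if_neg hbc]
    refine sum_eq_zero fun a _ => sum_eq_zero fun d _ => sum_eq_zero fun e _ =>
      sum_eq_zero fun f _ => ?_
    rw [if_neg]
    intro h
    exact hbc h.2.1


theorem RR_iff (a b : Fin 6) : RR a b ↔ (a : ℕ) ≤ b ∧ ((a : ℕ) = b → (a : ℕ) % 2 = 1) := by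
  unfold RR; rw [Fin.le_def, Fin.ext_iff]
theorem CC_iff (a b : Fin 6) : CC a b ↔ (a : ℕ) ≤ b ∧ ((a : ℕ) = b → (a : ℕ) % 2 = 0) := by
  unfold CC; rw [Fin.le_def, Fin.ext_iff]

theorem sum6 {F : Type*} [AddCommMonoid F] (f : Fin 6 → F) :
    ∑ i, f i = f 0 + f 1 + f 2 + f 3 + f 4 + f 5 := Fin.sum_univ_six f

theorem schurQ_val {F : Type*} [CommRing F] (x : ℕ → F) : schurQ [4, 2] 3 x =
    4 * (x 0 ^ 4 * x 1 ^ 2 + x 0 ^ 4 * x 2 ^ 2 + x 1 ^ 4 * x 0 ^ 2 +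
      x 1 ^ 4 * x 2 ^ 2 + x 2 ^ 4 * x 0 ^ 2 + x 2 ^ 4 * x 1 ^ 2) +
    8 * (x 0 ^ 4 * x 1 * x 2 + x 0 * x 1 ^ 4 * x 2 + x 0 * x 1 * x 2 ^ 4) +
    8 * (x 0 ^ 3 * x 1 ^ 3 + x 0 ^ 3 * x 2 ^ 3 + x 1 ^ 3 * x 2 ^ 3) +
    24 * (x 0 ^ 3 * x 1 ^ 2 * x 2 + x 0 ^ 3 * x 1 * x 2 ^ 2 + x 0 ^ 2 * x 1 ^ 3 * x 2 +
      x 0 ^ 2 * x 1 * x 2 ^ 3 + x 0 * x 1 ^ 3 * x 2 ^ 2 + x 0 * x 1 ^ 2 * x 2 ^ 3) +
    40 * (x 0 ^ 2 * x 1 ^ 2 * x 2 ^ 2) := by
  rw [schurQ_eq]
  have v : ((0 : Fin 6) : ℕ) = 0 ∧ ((1 : Fin 6) : ℕ) = 1 ∧ ((2 : Fin 6) : ℕ) = 2 ∧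
    ((3 : Fin 6) : ℕ) = 3 ∧ ((4 : Fin 6) : ℕ) = 4 ∧ ((5 : Fin 6) : ℕ) = 5 := by decide
  obtain ⟨v0, v1, v2, v3, v4, v5⟩ := v
  simp only [sum6, RR_iff, CC_iff, v0, v1, v2, v3, v4, v5]
  norm_num
  ring


/-! ### The remaining Hall-Littlewood functions -/

/-- monomial symmetric polynomials in three variables -/
def m6 {F : Type*} [CommRing F] (x y z : F) : F := x ^ 6 + y ^ 6 + z ^ 6
def m51 {F : Type*} [CommRing F] (x y z : F) : F := x ^ 5 * y + x ^ 5 * z + y ^ 5 * x + y ^ 5 * z +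
  z ^ 5 * x + z ^ 5 * y
def m42 {F : Type*} [CommRing F] (x y z : F) : F := x ^ 4 * y ^ 2 + x ^ 4 * z ^ 2 + y ^ 4 * x ^ 2 +
  y ^ 4 * z ^ 2 + z ^ 4 * x ^ 2 + z ^ 4 * y ^ 2
def m411 {F : Type*} [CommRing F] (x y z : F) : F := x ^ 4 * y * z + x * y ^ 4 * z + x * y * z ^ 4
def m33 {F : Type*} [CommRing F] (x y z : F) : F := x ^ 3 * y ^ 3 + x ^ 3 * z ^ 3 + y ^ 3 * z ^ 3
def m321 {F : Type*} [CommRing F] (x y z : F) : F := x ^ 3 * y ^ 2 * z + x ^ 3 * y * z ^ 2 +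
  x ^ 2 * y ^ 3 * z + x ^ 2 * y * z ^ 3 + x * y ^ 3 * z ^ 2 + x * y ^ 2 * z ^ 3
def m222 {F : Type*} [CommRing F] (x y z : F) : F := x ^ 2 * y ^ 2 * z ^ 2

section

set_option linter.unusedSectionVars false

variable {F : Type*} [Field F] (x : ℕ → F) (t : F)
  (h01 : x 0 - x 1 ≠ 0) (h02 : x 0 - x 2 ≠ 0) (h12 : x 1 - x 2 ≠ 0)
  (ht : 1 + t ≠ 0) (ht2 : 1 + t + t ^ 2 ≠ 0)

include h01 h02 h12 ht ht2

theorem Q6 : hlP 3 ![6, 0, 0] x t = m6 (x 0) (x 1) (x 2) + (1 - t) * m51 (x 0) (x 1) (x 2) +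
    (1 - t) * m42 (x 0) (x 1) (x 2) + (1 - t) ^ 2 * m411 (x 0) (x 1) (x 2) +
    (1 - t) * m33 (x 0) (x 1) (x 2) + (1 - t) ^ 2 * m321 (x 0) (x 1) (x 2) +
    (1 - t) ^ 2 * m222 (x 0) (x 1) (x 2) := by
  refine hlP_three 6 0 0 x t (1 + t) _ h01 h02 h12 ?_ ht ?_
  · rw [vprod 6 0 0 t [2, 0, 0, 0, 0, 0, 1] (by decide)]
    simp [vfac0, vfac1, vfac2]
  · unfold hsum m6 m51 m42 m411 m33 m321 m222
    ring

theorem Q51 : hlP 3 ![5, 1, 0] x t = m51 (x 0) (x 1) (x 2) + (1 - t) * m42 (x 0) (x 1) (x 2) +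
    (2 - 2 * t) * m411 (x 0) (x 1) (x 2) + (1 - t) * m33 (x 0) (x 1) (x 2) +
    (2 - 3 * t + t ^ 2) * m321 (x 0) (x 1) (x 2) +
    (2 - 4 * t + 2 * t ^ 2) * m222 (x 0) (x 1) (x 2) := by
  refine hlP_three 5 1 0 x t 1 _ h01 h02 h12 ?_ one_ne_zero ?_
  · rw [vprod 5 1 0 t [1, 1, 0, 0, 0, 1, 0] (by decide)]
    simp [vfac0, vfac1]
  · unfold hsum m51 m42 m411 m33 m321 m222
    ring

theorem Q42 : hlP 3 ![4, 2, 0] x t = m42 (x 0) (x 1) (x 2) + (1 - t) * m411 (x 0) (x 1) (x 2) +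
    (1 - t) * m33 (x 0) (x 1) (x 2) + (2 - 3 * t + t ^ 2) * m321 (x 0) (x 1) (x 2) +
    (3 - 4 * t + 2 * t ^ 2 - t ^ 3) * m222 (x 0) (x 1) (x 2) := by
  refine hlP_three 4 2 0 x t 1 _ h01 h02 h12 ?_ one_ne_zero ?_
  · rw [vprod 4 2 0 t [1, 0, 1, 0, 1, 0, 0] (by decide)]
    simp [vfac0, vfac1]
  · unfold hsum m42 m411 m33 m321 m222
    ring

theorem Q411 : hlP 3 ![4, 1, 1] x t = m411 (x 0) (x 1) (x 2) +
    (1 - t) * m321 (x 0) (x 1) (x 2) + (1 - 2 * t + t ^ 2) * m222 (x 0) (x 1) (x 2) := by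
  refine hlP_three 4 1 1 x t (1 + t) _ h01 h02 h12 ?_ ht ?_
  · rw [vprod 4 1 1 t [0, 2, 0, 0, 1, 0, 0] (by decide)]
    simp [vfac0, vfac1, vfac2]
  · unfold hsum m411 m321 m222
    ring

theorem Q33 : hlP 3 ![3, 3, 0] x t = m33 (x 0) (x 1) (x 2) +
    (1 - t) * m321 (x 0) (x 1) (x 2) + (1 - 2 * t + t ^ 2) * m222 (x 0) (x 1) (x 2) := by
  refine hlP_three 3 3 0 x t (1 + t) _ h01 h02 h12 ?_ ht ?_
  · rw [vprod 3 3 0 t [1, 0, 0, 2, 0, 0, 0] (by decide)]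
    simp [vfac0, vfac1, vfac2]
  · unfold hsum m33 m321 m222
    ring

theorem Q321 : hlP 3 ![3, 2, 1] x t = m321 (x 0) (x 1) (x 2) +
    (2 - t - t ^ 2) * m222 (x 0) (x 1) (x 2) := by
  refine hlP_three 3 2 1 x t 1 _ h01 h02 h12 ?_ one_ne_zero ?_
  · rw [vprod 3 2 1 t [0, 1, 1, 1, 0, 0, 0] (by decide)]
    simp [vfac0, vfac1]
  · unfold hsum m321 m222
    ring

theorem Q222 : hlP 3 ![2, 2, 2] x t = m222 (x 0) (x 1) (x 2) := by
  refine hlP_three 2 2 2 x t ((1 + t) * (1 + t + t ^ 2)) _ h01 h02 h12 ?_ (mul_ne_zero ht ht2) ?_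
  · rw [vprod 2 2 2 t [0, 0, 3, 0, 0, 0, 0] (by decide)]
    simp [vfac0, vfac3]
  · unfold hsum m222
    ring

end

/-! ### The partitions of `6` with at most three parts -/

def p6 : Nat.Partition 6 := ⟨{6}, by decide, by decide⟩
def p51 : Nat.Partition 6 := ⟨{5, 1}, by decide, by decide⟩
def p42 : Nat.Partition 6 := ⟨{4, 2}, by decide, by decide⟩
def p411 : Nat.Partition 6 := ⟨{4, 1, 1}, by decide, by decide⟩
def p33 : Nat.Partition 6 := ⟨{3, 3}, by decide, by decide⟩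
/-- The partition `(3,2,1)`. -/
def p321 : Nat.Partition 6 := ⟨{3, 2, 1}, by decide, by decide⟩
def p222 : Nat.Partition 6 := ⟨{2, 2, 2}, by decide, by decide⟩

theorem lst_of {m : ℕ} (μ : Nat.Partition m) (l : List ℕ) (h : μ.parts = ↑l)
    (hl : l.Pairwise (· ≥ ·)) : lst μ = l := by
  have h1 : (↑(lst μ) : Multiset ℕ) = ↑l := by
    rw [← h]
    exact Multiset.sort_eq _ _
  rw [Multiset.coe_eq_coe] at h1
  exact h1.eq_of_pairwise' (Multiset.pairwise_sort _ _) hl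

/-- All decreasing lists of positive integers `≤ m` of length at most `f` with sum `n`. -/
def enumF : ℕ → ℕ → ℕ → List (List ℕ)
  | 0, n, _ => if n = 0 then [[]] else []
  | f + 1, n, m => if n = 0 then [[]] else
      (List.range m).flatMap fun i =>
        if i + 1 ≤ n then (enumF f (n - (i + 1)) (i + 1)).map ((i + 1) :: ·) else []

theorem mem_enumF (l : List ℕ) : ∀ (f n m : ℕ), l.Pairwise (· ≥ ·) → (∀ x ∈ l, 1 ≤ x ∧ x ≤ m) →
    l.sum = n → l.length ≤ f → l ∈ enumF f n m := by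
  induction l with
  | nil =>
    intro f n m _ _ h3 _
    simp at h3
    subst h3
    cases f <;> simp [enumF]
  | cons a t ih =>
    intro f n m h1 h2 h3 h4
    obtain ⟨h5, h6⟩ := List.pairwise_cons.1 h1
    obtain ⟨h7, h8⟩ := h2 a (by simp)
    simp at h3 h4
    match f, h4 with
    | f + 1, h4 =>
      rw [enumF, if_neg (by omega), List.mem_flatMap]
      refine ⟨a - 1, by rw [List.mem_range]; omega, ?_⟩
      rw [if_pos (by omega), show a - 1 + 1 = a by omega, List.mem_map]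
      refine ⟨t, ih f (n - a) a h6 (fun x hx => ⟨(h2 x (by simp [hx])).1, h5 x hx⟩) (by omega)
        (by omega), rfl⟩

theorem parts3 : (univ.filter fun μ : Nat.Partition 6 => Multiset.card μ.parts ≤ 3) =
    {p6, p51, p42, p411, p33, p321, p222} := by
  have hs : ∀ μ : Nat.Partition 6, (↑(lst μ) : Multiset ℕ) = μ.parts := fun μ =>
    Multiset.sort_eq _ _
  ext μ
  simp only [mem_filter, mem_univ, true_and, mem_insert, mem_singleton]
  constructor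
  · intro hμ
    have hmem : lst μ ∈ enumF 3 6 6 := by
      apply mem_enumF
      · exact Multiset.pairwise_sort _ _
      · intro x hx
        have hx' : x ∈ μ.parts := by rw [← hs μ]; exact hx
        refine ⟨μ.parts_pos hx', ?_⟩
        rw [← μ.parts_sum]
        exact Multiset.le_sum_of_mem hx'
      · rw [← Multiset.sum_coe, hs, μ.parts_sum]
      · rw [← Multiset.coe_card, hs]
        exact hμ
    have he : enumF 3 6 6 = [[2, 2, 2], [3, 2, 1], [3, 3], [4, 1, 1], [4, 2], [5, 1], [6]] := by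
      decide
    rw [he] at hmem
    have hext : ∀ ν : Nat.Partition 6, (↑(lst μ) : Multiset ℕ) = ν.parts → μ = ν := by
      intro ν h
      ext1
      rw [← hs μ, h]
    simp only [List.mem_cons, List.not_mem_nil, or_false] at hmem
    rcases hmem with h | h | h | h | h | h | h <;> rw [h] at hext
    · have := hext p222 rfl
      tauto
    · have := hext p321 rfl
      tauto
    · have := hext p33 rfl
      tauto
    · have := hext p411 rfl
      tauto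
    · have := hext p42 rfl
      tauto
    · have := hext p51 rfl
      tauto
    · have := hext p6 rfl
      tauto
  · rintro (rfl | rfl | rfl | rfl | rfl | rfl | rfl) <;> decide

theorem sum_parts3 {M : Type*} [AddCommMonoid M] (f : Nat.Partition 6 → M) :
    ∑ μ : Nat.Partition 6 with Multiset.card μ.parts ≤ 3, f μ =
    f p6 + f p51 + f p42 + f p411 + f p33 + f p321 + f p222 := by
  rw [parts3, sum_insert (by decide), sum_insert (by decide), sum_insert (by decide),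
    sum_insert (by decide), sum_insert (by decide), sum_insert (by decide), sum_singleton]
  simp only [add_assoc]

theorem vec (l : List ℕ) (a b c : ℕ) (h0 : l.getD 0 0 = a) (h1 : l.getD 1 0 = b)
    (h2 : l.getD 2 0 = c) : (fun i : Fin 3 => l.getD i 0) = ![a, b, c] := by
  funext i
  fin_cases i
  · exact h0
  · exact h1
  · exact h2

theorem vecs : (fun i : Fin 3 => (lst p6).getD i 0) = ![6, 0, 0] ∧
    (fun i : Fin 3 => (lst p51).getD i 0) = ![5, 1, 0] ∧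
    (fun i : Fin 3 => (lst p42).getD i 0) = ![4, 2, 0] ∧
    (fun i : Fin 3 => (lst p411).getD i 0) = ![4, 1, 1] ∧
    (fun i : Fin 3 => (lst p33).getD i 0) = ![3, 3, 0] ∧
    (fun i : Fin 3 => (lst p321).getD i 0) = ![3, 2, 1] ∧
    (fun i : Fin 3 => (lst p222).getD i 0) = ![2, 2, 2] := by
  rw [lst_of p6 [6] rfl (by decide), lst_of p51 [5, 1] rfl (by decide),
    lst_of p42 [4, 2] rfl (by decide), lst_of p411 [4, 1, 1] rfl (by decide),
    lst_of p33 [3, 3] rfl (by decide), lst_of p321 [3, 2, 1] rfl (by decide),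
    lst_of p222 [2, 2, 2] rfl (by decide)]
  exact ⟨vec _ _ _ _ rfl rfl rfl, vec _ _ _ _ rfl rfl rfl, vec _ _ _ _ rfl rfl rfl,
    vec _ _ _ _ rfl rfl rfl, vec _ _ _ _ rfl rfl rfl, vec _ _ _ _ rfl rfl rfl,
    vec _ _ _ _ rfl rfl rfl⟩

/-! ### Comparison of coefficients -/

/-- The polynomial ring in three variables over `ℤ[t]`. -/
abbrev A := MvPolynomial (Fin 3) (Polynomial ℤ)

theorem coeff_mon (s : Fin 3 →₀ ℕ) (a b c : ℕ) (p : Polynomial ℤ) :
    MvPolynomial.coeff s (MvPolynomial.C p * ((MvPolynomial.X 0 : A) ^ a *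
      (MvPolynomial.X 1) ^ b * (MvPolynomial.X 2) ^ c)) =
    if s 0 = a ∧ s 1 = b ∧ s 2 = c then p else 0 := by
  have h : ((MvPolynomial.X 0 : A) ^ a * (MvPolynomial.X 1) ^ b * (MvPolynomial.X 2) ^ c) =
      MvPolynomial.monomial (Finsupp.equivFunOnFinite.symm ![a, b, c]) 1 := by
    have hexp : Finsupp.single (0 : Fin 3) a + Finsupp.single 1 b + Finsupp.single 2 c =
        Finsupp.equivFunOnFinite.symm ![a, b, c] := by
      ext i
      fin_cases i <;> simp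
    rw [MvPolynomial.X_pow_eq_monomial, MvPolynomial.X_pow_eq_monomial,
      MvPolynomial.X_pow_eq_monomial, MvPolynomial.monomial_mul, MvPolynomial.monomial_mul,
      one_mul, one_mul, hexp]
  rw [h, MvPolynomial.coeff_C_mul, MvPolynomial.coeff_monomial]
  by_cases hs : s 0 = a ∧ s 1 = b ∧ s 2 = c
  · rw [if_pos hs, if_pos, mul_one]
    ext i
    fin_cases i
    · exact hs.1.symm
    · exact hs.2.1.symm
    · exact hs.2.2.symm
  · rw [if_neg hs, if_neg, mul_zero]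
    rintro rfl
    exact hs ⟨rfl, rfl, rfl⟩


/-- The monomial symmetric polynomials are linearly independent over `ℤ[t]`. -/
theorem indep (e6 e51 e42 e411 e33 e321 e222 : Polynomial ℤ)
    (h : MvPolynomial.C e6 * m6 (MvPolynomial.X 0 : A) (MvPolynomial.X 1) (MvPolynomial.X 2) +
      MvPolynomial.C e51 * m51 (MvPolynomial.X 0 : A) (MvPolynomial.X 1) (MvPolynomial.X 2) +
      MvPolynomial.C e42 * m42 (MvPolynomial.X 0 : A) (MvPolynomial.X 1) (MvPolynomial.X 2) +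
      MvPolynomial.C e411 * m411 (MvPolynomial.X 0 : A) (MvPolynomial.X 1) (MvPolynomial.X 2) +
      MvPolynomial.C e33 * m33 (MvPolynomial.X 0 : A) (MvPolynomial.X 1) (MvPolynomial.X 2) +
      MvPolynomial.C e321 * m321 (MvPolynomial.X 0 : A) (MvPolynomial.X 1) (MvPolynomial.X 2) +
      MvPolynomial.C e222 * m222 (MvPolynomial.X 0 : A) (MvPolynomial.X 1) (MvPolynomial.X 2) = 0) :
    e6 = 0 ∧ e51 = 0 ∧ e42 = 0 ∧ e411 = 0 ∧ e33 = 0 ∧ e321 = 0 ∧ e222 = 0 := by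
  have mono : ∀ (e : Polynomial ℤ),
      MvPolynomial.C e * m6 (MvPolynomial.X 0 : A) (MvPolynomial.X 1) (MvPolynomial.X 2) =
      MvPolynomial.C e * ((MvPolynomial.X 0) ^ 6 * (MvPolynomial.X 1) ^ 0 * (MvPolynomial.X 2) ^ 0) +
      MvPolynomial.C e * ((MvPolynomial.X 0) ^ 0 * (MvPolynomial.X 1) ^ 6 * (MvPolynomial.X 2) ^ 0) +
      MvPolynomial.C e * ((MvPolynomial.X 0) ^ 0 * (MvPolynomial.X 1) ^ 0 * (MvPolynomial.X 2) ^ 6) :=
    fun e => by unfold m6; ring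
  have mono51 : ∀ (e : Polynomial ℤ),
      MvPolynomial.C e * m51 (MvPolynomial.X 0 : A) (MvPolynomial.X 1) (MvPolynomial.X 2) =
      MvPolynomial.C e * ((MvPolynomial.X 0) ^ 5 * (MvPolynomial.X 1) ^ 1 * (MvPolynomial.X 2) ^ 0) +
      MvPolynomial.C e * ((MvPolynomial.X 0) ^ 5 * (MvPolynomial.X 1) ^ 0 * (MvPolynomial.X 2) ^ 1) +
      MvPolynomial.C e * ((MvPolynomial.X 0) ^ 1 * (MvPolynomial.X 1) ^ 5 * (MvPolynomial.X 2) ^ 0) +
      MvPolynomial.C e * ((MvPolynomial.X 0) ^ 0 * (MvPolynomial.X 1) ^ 5 * (MvPolynomial.X 2) ^ 1) +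
      MvPolynomial.C e * ((MvPolynomial.X 0) ^ 1 * (MvPolynomial.X 1) ^ 0 * (MvPolynomial.X 2) ^ 5) +
      MvPolynomial.C e * ((MvPolynomial.X 0) ^ 0 * (MvPolynomial.X 1) ^ 1 * (MvPolynomial.X 2) ^ 5) :=
    fun e => by unfold m51; ring
  have mono42 : ∀ (e : Polynomial ℤ),
      MvPolynomial.C e * m42 (MvPolynomial.X 0 : A) (MvPolynomial.X 1) (MvPolynomial.X 2) =
      MvPolynomial.C e * ((MvPolynomial.X 0) ^ 4 * (MvPolynomial.X 1) ^ 2 * (MvPolynomial.X 2) ^ 0) +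
      MvPolynomial.C e * ((MvPolynomial.X 0) ^ 4 * (MvPolynomial.X 1) ^ 0 * (MvPolynomial.X 2) ^ 2) +
      MvPolynomial.C e * ((MvPolynomial.X 0) ^ 2 * (MvPolynomial.X 1) ^ 4 * (MvPolynomial.X 2) ^ 0) +
      MvPolynomial.C e * ((MvPolynomial.X 0) ^ 0 * (MvPolynomial.X 1) ^ 4 * (MvPolynomial.X 2) ^ 2) +
      MvPolynomial.C e * ((MvPolynomial.X 0) ^ 2 * (MvPolynomial.X 1) ^ 0 * (MvPolynomial.X 2) ^ 4) +
      MvPolynomial.C e * ((MvPolynomial.X 0) ^ 0 * (MvPolynomial.X 1) ^ 2 * (MvPolynomial.X 2) ^ 4) :=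
    fun e => by unfold m42; ring
  have mono411 : ∀ (e : Polynomial ℤ),
      MvPolynomial.C e * m411 (MvPolynomial.X 0 : A) (MvPolynomial.X 1) (MvPolynomial.X 2) =
      MvPolynomial.C e * ((MvPolynomial.X 0) ^ 4 * (MvPolynomial.X 1) ^ 1 * (MvPolynomial.X 2) ^ 1) +
      MvPolynomial.C e * ((MvPolynomial.X 0) ^ 1 * (MvPolynomial.X 1) ^ 4 * (MvPolynomial.X 2) ^ 1) +
      MvPolynomial.C e * ((MvPolynomial.X 0) ^ 1 * (MvPolynomial.X 1) ^ 1 * (MvPolynomial.X 2) ^ 4) :=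
    fun e => by unfold m411; ring
  have mono33 : ∀ (e : Polynomial ℤ),
      MvPolynomial.C e * m33 (MvPolynomial.X 0 : A) (MvPolynomial.X 1) (MvPolynomial.X 2) =
      MvPolynomial.C e * ((MvPolynomial.X 0) ^ 3 * (MvPolynomial.X 1) ^ 3 * (MvPolynomial.X 2) ^ 0) +
      MvPolynomial.C e * ((MvPolynomial.X 0) ^ 3 * (MvPolynomial.X 1) ^ 0 * (MvPolynomial.X 2) ^ 3) +
      MvPolynomial.C e * ((MvPolynomial.X 0) ^ 0 * (MvPolynomial.X 1) ^ 3 * (MvPolynomial.X 2) ^ 3) :=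
    fun e => by unfold m33; ring
  have mono321 : ∀ (e : Polynomial ℤ),
      MvPolynomial.C e * m321 (MvPolynomial.X 0 : A) (MvPolynomial.X 1) (MvPolynomial.X 2) =
      MvPolynomial.C e * ((MvPolynomial.X 0) ^ 3 * (MvPolynomial.X 1) ^ 2 * (MvPolynomial.X 2) ^ 1) +
      MvPolynomial.C e * ((MvPolynomial.X 0) ^ 3 * (MvPolynomial.X 1) ^ 1 * (MvPolynomial.X 2) ^ 2) +
      MvPolynomial.C e * ((MvPolynomial.X 0) ^ 2 * (MvPolynomial.X 1) ^ 3 * (MvPolynomial.X 2) ^ 1) +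
      MvPolynomial.C e * ((MvPolynomial.X 0) ^ 2 * (MvPolynomial.X 1) ^ 1 * (MvPolynomial.X 2) ^ 3) +
      MvPolynomial.C e * ((MvPolynomial.X 0) ^ 1 * (MvPolynomial.X 1) ^ 3 * (MvPolynomial.X 2) ^ 2) +
      MvPolynomial.C e * ((MvPolynomial.X 0) ^ 1 * (MvPolynomial.X 1) ^ 2 * (MvPolynomial.X 2) ^ 3) :=
    fun e => by unfold m321; ring
  have mono222 : ∀ (e : Polynomial ℤ),
      MvPolynomial.C e * m222 (MvPolynomial.X 0 : A) (MvPolynomial.X 1) (MvPolynomial.X 2) =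
      MvPolynomial.C e * ((MvPolynomial.X 0) ^ 2 * (MvPolynomial.X 1) ^ 2 * (MvPolynomial.X 2) ^ 2) :=
    fun e => by unfold m222; ring
  rw [mono, mono51, mono42, mono411, mono33, mono321, mono222] at h
  have c : ∀ a b c : ℕ, _ := fun a b c =>
    congrArg (MvPolynomial.coeff (Finsupp.equivFunOnFinite.symm ![a, b, c])) h
  simp only [MvPolynomial.coeff_add, coeff_mon, MvPolynomial.coeff_zero,
    Finsupp.equivFunOnFinite_symm_apply_apply, Matrix.cons_val_zero, Matrix.cons_val_one,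
    Matrix.cons_val] at c
  refine ⟨?_, ?_, ?_, ?_, ?_, ?_, ?_⟩
  · simpa using c 6 0 0
  · simpa using c 5 1 0
  · simpa using c 4 2 0
  · simpa using c 4 1 1
  · simpa using c 3 3 0
  · simpa using c 3 2 1
  · simpa using c 2 2 2


open Polynomial in
/-- the coefficients of the difference of the two sides -/
noncomputable def diffs (c6 c51 c42 c411 c33 c321 c222 : Polynomial ℤ) : List (Polynomial ℤ) :=
  [-c6, -(c6 * (1 - X) + c51), 4 - (c6 * (1 - X) + c51 * (1 - X) + c42),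
   8 - (c6 * (1 - X) ^ 2 + c51 * (2 - 2 * X) + c42 * (1 - X) + c411),
   8 - (c6 * (1 - X) + c51 * (1 - X) + c42 * (1 - X) + c33),
   24 - (c6 * (1 - X) ^ 2 + c51 * (2 - 3 * X + X ^ 2) + c42 * (2 - 3 * X + X ^ 2) +
     c411 * (1 - X) + c33 * (1 - X) + c321),
   40 - (c6 * (1 - X) ^ 2 + c51 * (2 - 4 * X + 2 * X ^ 2) + c42 * (3 - 4 * X + 2 * X ^ 2 - X ^ 3) +
     c411 * (1 - 2 * X + X ^ 2) + c33 * (1 - 2 * X + X ^ 2) + c321 * (2 - X - X ^ 2) + c222)]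

theorem algInj : Function.Injective (algebraMap A (K 3)) := IsFractionRing.injective A (K 3)

theorem xx3 : xx 3 0 = algebraMap A (K 3) (MvPolynomial.X 0) ∧
    xx 3 1 = algebraMap A (K 3) (MvPolynomial.X 1) ∧
    xx 3 2 = algebraMap A (K 3) (MvPolynomial.X 2) := by
  refine ⟨?_, ?_, ?_⟩ <;> (unfold xx; rw [dif_pos (by norm_num)]; rfl)

theorem X_ne (i j : Fin 3) (h : i ≠ j) : algebraMap A (K 3) (MvPolynomial.X i) -
    algebraMap A (K 3) (MvPolynomial.X j) ≠ 0 := by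
  rw [sub_ne_zero]
  intro h2
  exact h (MvPolynomial.X_injective (algInj h2))

theorem C_ne (p : Polynomial ℤ) (h : p ≠ 0) : algebraMap A (K 3) (MvPolynomial.C p) ≠ 0 := by
  intro h2
  rw [← map_zero (algebraMap A (K 3))] at h2
  have := algInj h2
  rw [← map_zero (MvPolynomial.C (σ := Fin 3))] at this
  exact h (MvPolynomial.C_injective _ _ this)

theorem t_ne1 : 1 + tt 3 ≠ 0 := by
  have h : (1 : Polynomial ℤ) + Polynomial.X ≠ 0 := by
    intro h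
    have := congrArg (Polynomial.eval 0) h
    simp at this
  have := C_ne _ h
  rw [map_add, map_add, map_one, map_one] at this
  exact this

theorem t_ne2 : 1 + tt 3 + tt 3 ^ 2 ≠ 0 := by
  have h : (1 : Polynomial ℤ) + Polynomial.X + Polynomial.X ^ 2 ≠ 0 := by
    intro h
    have := congrArg (Polynomial.eval 0) h
    simp at this
  have := C_ne _ h
  simp only [map_add, map_one, map_pow] at this
  exact this

open Polynomial in
theorem expansion_iff (c : Nat.Partition 6 → Polynomial ℤ) : Expansion 6 [4, 2] c 3 ↔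
    ∀ p ∈ diffs (c p6) (c p51) (c p42) (c p411) (c p33) (c p321) (c p222), p = 0 := by
  unfold Expansion
  obtain ⟨v6, v51, v42, v411, v33, v321, v222⟩ := vecs
  obtain ⟨x0, x1, x2⟩ := xx3
  have h01 : xx 3 0 - xx 3 1 ≠ 0 := by rw [x0, x1]; exact X_ne 0 1 (by decide)
  have h02 : xx 3 0 - xx 3 2 ≠ 0 := by rw [x0, x2]; exact X_ne 0 2 (by decide)
  have h12 : xx 3 1 - xx 3 2 ≠ 0 := by rw [x1, x2]; exact X_ne 1 2 (by decide)
  rw [sum_parts3, v6, v51, v42, v411, v33, v321, v222, Q6 _ _ h01 h02 h12 t_ne1 t_ne2,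
    Q51 _ _ h01 h02 h12 t_ne1 t_ne2, Q42 _ _ h01 h02 h12 t_ne1 t_ne2,
    Q411 _ _ h01 h02 h12 t_ne1 t_ne2, Q33 _ _ h01 h02 h12 t_ne1 t_ne2,
    Q321 _ _ h01 h02 h12 t_ne1 t_ne2, Q222 _ _ h01 h02 h12 t_ne1 t_ne2, schurQ_val, ← sub_eq_zero]
  generalize c p6 = c6
  generalize c p51 = c51
  generalize c p42 = c42
  generalize c p411 = c411
  generalize c p33 = c33
  generalize c p321 = c321
  generalize c p222 = c222
  have key : ∀ (e : List (Polynomial ℤ)), e = diffs c6 c51 c42 c411 c33 c321 c222 →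
    algebraMap A (K 3) (MvPolynomial.C (e.getD 0 0) * m6 (MvPolynomial.X 0 : A) (MvPolynomial.X 1) (MvPolynomial.X 2) +
      MvPolynomial.C (e.getD 1 0) * m51 (MvPolynomial.X 0 : A) (MvPolynomial.X 1) (MvPolynomial.X 2) +
      MvPolynomial.C (e.getD 2 0) * m42 (MvPolynomial.X 0 : A) (MvPolynomial.X 1) (MvPolynomial.X 2) +
      MvPolynomial.C (e.getD 3 0) * m411 (MvPolynomial.X 0 : A) (MvPolynomial.X 1) (MvPolynomial.X 2) +
      MvPolynomial.C (e.getD 4 0) * m33 (MvPolynomial.X 0 : A) (MvPolynomial.X 1) (MvPolynomial.X 2) +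
      MvPolynomial.C (e.getD 5 0) * m321 (MvPolynomial.X 0 : A) (MvPolynomial.X 1) (MvPolynomial.X 2) +
      MvPolynomial.C (e.getD 6 0) * m222 (MvPolynomial.X 0 : A) (MvPolynomial.X 1) (MvPolynomial.X 2)) =
      4 * (xx 3 0 ^ 4 * xx 3 1 ^ 2 + xx 3 0 ^ 4 * xx 3 2 ^ 2 + xx 3 1 ^ 4 * xx 3 0 ^ 2 +
      xx 3 1 ^ 4 * xx 3 2 ^ 2 + xx 3 2 ^ 4 * xx 3 0 ^ 2 + xx 3 2 ^ 4 * xx 3 1 ^ 2) +
    8 * (xx 3 0 ^ 4 * xx 3 1 * xx 3 2 + xx 3 0 * xx 3 1 ^ 4 * xx 3 2 + xx 3 0 * xx 3 1 * xx 3 2 ^ 4) +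
    8 * (xx 3 0 ^ 3 * xx 3 1 ^ 3 + xx 3 0 ^ 3 * xx 3 2 ^ 3 + xx 3 1 ^ 3 * xx 3 2 ^ 3) +
    24 * (xx 3 0 ^ 3 * xx 3 1 ^ 2 * xx 3 2 + xx 3 0 ^ 3 * xx 3 1 * xx 3 2 ^ 2 + xx 3 0 ^ 2 * xx 3 1 ^ 3 * xx 3 2 +
      xx 3 0 ^ 2 * xx 3 1 * xx 3 2 ^ 3 + xx 3 0 * xx 3 1 ^ 3 * xx 3 2 ^ 2 + xx 3 0 * xx 3 1 ^ 2 * xx 3 2 ^ 3) +
    40 * (xx 3 0 ^ 2 * xx 3 1 ^ 2 * xx 3 2 ^ 2) -
      (algebraMap A (K 3) (MvPolynomial.C c6) * (m6 (xx 3 0) (xx 3 1) (xx 3 2) + (1 - tt 3) * m51 (xx 3 0) (xx 3 1) (xx 3 2) +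
    (1 - tt 3) * m42 (xx 3 0) (xx 3 1) (xx 3 2) + (1 - tt 3) ^ 2 * m411 (xx 3 0) (xx 3 1) (xx 3 2) +
    (1 - tt 3) * m33 (xx 3 0) (xx 3 1) (xx 3 2) + (1 - tt 3) ^ 2 * m321 (xx 3 0) (xx 3 1) (xx 3 2) +
    (1 - tt 3) ^ 2 * m222 (xx 3 0) (xx 3 1) (xx 3 2)) +
    algebraMap A (K 3) (MvPolynomial.C c51) * (m51 (xx 3 0) (xx 3 1) (xx 3 2) + (1 - tt 3) * m42 (xx 3 0) (xx 3 1) (xx 3 2) +
    (2 - 2 * tt 3) * m411 (xx 3 0) (xx 3 1) (xx 3 2) + (1 - tt 3) * m33 (xx 3 0) (xx 3 1) (xx 3 2) +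
    (2 - 3 * tt 3 + tt 3 ^ 2) * m321 (xx 3 0) (xx 3 1) (xx 3 2) +
    (2 - 4 * tt 3 + 2 * tt 3 ^ 2) * m222 (xx 3 0) (xx 3 1) (xx 3 2)) +
    algebraMap A (K 3) (MvPolynomial.C c42) * (m42 (xx 3 0) (xx 3 1) (xx 3 2) + (1 - tt 3) * m411 (xx 3 0) (xx 3 1) (xx 3 2) +
    (1 - tt 3) * m33 (xx 3 0) (xx 3 1) (xx 3 2) + (2 - 3 * tt 3 + tt 3 ^ 2) * m321 (xx 3 0) (xx 3 1) (xx 3 2) +
    (3 - 4 * tt 3 + 2 * tt 3 ^ 2 - tt 3 ^ 3) * m222 (xx 3 0) (xx 3 1) (xx 3 2)) +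
    algebraMap A (K 3) (MvPolynomial.C c411) * (m411 (xx 3 0) (xx 3 1) (xx 3 2) +
    (1 - tt 3) * m321 (xx 3 0) (xx 3 1) (xx 3 2) + (1 - 2 * tt 3 + tt 3 ^ 2) * m222 (xx 3 0) (xx 3 1) (xx 3 2)) +
    algebraMap A (K 3) (MvPolynomial.C c33) * (m33 (xx 3 0) (xx 3 1) (xx 3 2) +
    (1 - tt 3) * m321 (xx 3 0) (xx 3 1) (xx 3 2) + (1 - 2 * tt 3 + tt 3 ^ 2) * m222 (xx 3 0) (xx 3 1) (xx 3 2)) +
    algebraMap A (K 3) (MvPolynomial.C c321) * (m321 (xx 3 0) (xx 3 1) (xx 3 2) +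
    (2 - tt 3 - tt 3 ^ 2) * m222 (xx 3 0) (xx 3 1) (xx 3 2)) +
    algebraMap A (K 3) (MvPolynomial.C c222) * (m222 (xx 3 0) (xx 3 1) (xx 3 2))) := by
    rintro e rfl
    rw [x0, x1, x2]
    unfold diffs tt m6 m51 m42 m411 m33 m321 m222
    simp only [List.getD_cons_zero, List.getD_cons_succ, map_add, map_sub, map_mul, map_pow,
      map_neg, map_one, map_ofNat]
    ring
  rw [← key _ rfl]
  rw [map_eq_zero_iff _ algInj]
  constructor
  · intro h
    obtain ⟨h1, h2, h3, h4, h5, h6, h7⟩ := indep _ _ _ _ _ _ _ h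
    simp only [diffs, List.getD_cons_zero, List.getD_cons_succ] at h1 h2 h3 h4 h5 h6 h7
    intro p hp
    simp only [diffs, List.mem_cons, List.not_mem_nil, or_false] at hp
    rcases hp with rfl | rfl | rfl | rfl | rfl | rfl | rfl <;> assumption
  · intro h
    have hz : ∀ i, (diffs c6 c51 c42 c411 c33 c321 c222).getD i 0 = 0 := by
      intro i
      by_cases hi : i < (diffs c6 c51 c42 c411 c33 c321 c222).length
      · rw [List.getD_eq_getElem _ _ hi]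
        exact h _ (List.getElem_mem hi)
      · rw [List.getD_eq_default _ _ (by omega)]
    simp only [hz, map_zero, zero_mul, add_zero]

open Polynomial in
theorem exists_aux : ∃ c, Expansion 6 [4, 2] c 3 := by
  let c : Nat.Partition 6 → Polynomial ℤ := fun μ => if μ = p42 then 4 else
      if μ = p411 then 4 + 4 * X else
      if μ = p33 then 4 + 4 * X else if μ = p321 then 8 + 12 * X + 4 * X ^ 2 else
      if μ = p222 then 4 + 8 * X + 12 * X ^ 2 + 12 * X ^ 3 + 4 * X ^ 4 else 0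
  refine ⟨c, ?_⟩
  rw [expansion_iff]
  have v6 : c p6 = 0 := by
    have d : p6 ≠ p42 ∧ p6 ≠ p411 ∧ p6 ≠ p33 ∧ p6 ≠ p321 ∧ p6 ≠ p222 := by decide
    simp only [c, d, if_false]
  have v51 : c p51 = 0 := by
    have d : p51 ≠ p42 ∧ p51 ≠ p411 ∧ p51 ≠ p33 ∧ p51 ≠ p321 ∧ p51 ≠ p222 := by decide
    simp only [c, d, if_false]
  have v42 : c p42 = 4 := by simp only [c, if_true]
  have v411 : c p411 = 4 + 4 * X := by
    have d : p411 ≠ p42 := by decide
    simp only [c, d, if_false, if_true]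
  have v33 : c p33 = 4 + 4 * X := by
    have d : p33 ≠ p42 ∧ p33 ≠ p411 := by decide
    simp only [c, d, if_false, if_true]
  have v321 : c p321 = 8 + 12 * X + 4 * X ^ 2 := by
    have d : p321 ≠ p42 ∧ p321 ≠ p411 ∧ p321 ≠ p33 := by decide
    simp only [c, d, if_false, if_true]
  have v222 : c p222 = 4 + 8 * X + 12 * X ^ 2 + 12 * X ^ 3 + 4 * X ^ 4 := by
    have d : p222 ≠ p42 ∧ p222 ≠ p411 ∧ p222 ≠ p33 ∧ p222 ≠ p321 := by decide
    simp only [c, d, if_false, if_true]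
  rw [v6, v51, v42, v411, v33, v321, v222]
  unfold diffs
  intro p hp
  simp only [List.mem_cons, List.not_mem_nil, or_false] at hp
  rcases hp with h | h | h | h | h | h | h
  · rw [h]; ring
  · rw [h]; ring
  · rw [h]; ring
  · rw [h]; ring
  · rw [h]; ring
  · rw [h]; ring
  · rw [h]; ring

open Polynomial in
theorem unique_aux (c : Nat.Partition 6 → Polynomial ℤ) (hc : Expansion 6 [4, 2] c 3) :
    c p321 = 8 + 12 * X + 4 * X ^ 2 := by
  rw [expansion_iff] at hc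
  have e : ∀ i, (diffs (c p6) (c p51) (c p42) (c p411) (c p33) (c p321) (c p222)).getD i 0 = 0 := by
    intro i
    by_cases hi : i < (diffs (c p6) (c p51) (c p42) (c p411) (c p33) (c p321) (c p222)).length
    · rw [List.getD_eq_getElem _ _ hi]
      exact hc _ (List.getElem_mem hi)
    · rw [List.getD_eq_default _ _ (by omega)]
  have e1 := e 0
  have e2 := e 1
  have e3 := e 2
  have e4 := e 3
  have e5 := e 4
  have e6 := e 5
  simp only [diffs, List.getD_cons_zero, List.getD_cons_succ] at e1 e2 e3 e4 e5 e6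
  have f1 : c p6 = 0 := by linear_combination -e1
  have f2 : c p51 = 0 := by rw [f1] at e2; linear_combination -e2
  have f3 : c p42 = 4 := by rw [f1, f2] at e3; linear_combination -e3
  have f4 : c p411 = 4 + 4 * X := by rw [f1, f2, f3] at e4; linear_combination -e4
  have f5 : c p33 = 4 + 4 * X := by rw [f1, f2, f3] at e5; linear_combination -e5
  rw [f1, f2, f3, f4, f5] at e6
  linear_combination -e6

open Polynomial in
theorem not_pal : ¬ Palindromic (8 + 12 * X + 4 * X ^ 2 : Polynomial ℤ) := by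
  rintro ⟨m, hm⟩
  have hc : ∀ n : ℕ, (8 + 12 * X + 4 * X ^ 2 : Polynomial ℤ).coeff n =
      if n = 0 then 8 else if n = 1 then 12 else if n = 2 then 4 else 0 := by
    intro n
    have e : (8 + 12 * X + 4 * X ^ 2 : Polynomial ℤ) = C 8 + C 12 * X + C 4 * X ^ 2 := by
      simp only [map_ofNat]
    rw [e, coeff_add, coeff_add, coeff_C, coeff_C_mul, coeff_C_mul, coeff_X, coeff_X_pow]
    rcases n with _ | _ | _ | n <;> simp
  have m0 := hm 0
  have m1 := hm 1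
  rw [if_pos le_rfl] at m0
  rw [if_pos (by norm_num)] at m1
  simp only [hc] at m0 m1
  rw [if_pos (by norm_num)] at m0
  rw [if_neg (by norm_num), if_pos (by norm_num)] at m1
  by_cases h : m = 0
  · rw [h, if_neg (by norm_num)] at m1
    norm_num at m1
  · by_cases h2 : 0 ≤ m - 0
    · rw [if_pos h2, if_neg (by omega)] at m0
      by_cases h3 : (m - 0).toNat = 1
      · rw [if_pos h3] at m0
        norm_num at m0
      · rw [if_neg h3] at m0
        by_cases h4 : (m - 0).toNat = 2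
        · rw [if_pos h4] at m0
          norm_num at m0
        · rw [if_neg h4] at m0
          norm_num at m0
    · rw [if_neg h2] at m0
      norm_num at m0

open Polynomial in
/-- **Theorem.** The spin Kostka polynomial `K^-_{(4,2),(3,2,1)}(t)` is `8 + 12 t + 4 t^2`, which is
not palindromic. In detail: in three variables there is a family `c_μ(t)` with
`Q_{(4,2)}(x) = ∑_μ c_μ(t) P_μ(x;t)`; every such family has `c_{(3,2,1)} = 8 + 12 t + 4 t^2`; hence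
every family `c` for which the identity holds in any number of variables has this value at
`(3,2,1)`; and `8 + 12 t + 4 t^2` is not palindromic. -/
theorem result :
    (∃ c, Expansion 6 [4, 2] c 3) ∧
    (∀ c, Expansion 6 [4, 2] c 3 → c p321 = 8 + 12 * X + 4 * X ^ 2) ∧
    (∀ c, IsSpinKostka 6 [4, 2] c → c p321 = 8 + 12 * X + 4 * X ^ 2) ∧
    ¬ Palindromic (8 + 12 * X + 4 * X ^ 2 : Polynomial ℤ) :=
  ⟨exists_aux, unique_aux, fun c hc => unique_aux c (hc 3), not_pal⟩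

end Pool.Agent.Results.MP_2c9e21_co.SpinKostka
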